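import Mathlib

open MeasureTheory Set

namespace Pool.Agent.Results.MP_6b0309_co.LargeK

/-- The rectangle `[0,d] × [0,d⁻¹]`, of area one. -/
def rect (d : ℝ) : Set (ℝ × ℝ) := Icc 0 d ×ˢ Icc 0 d⁻¹

/-- The area of the convex hull of a finite set of points of the plane. -/
noncomputable def hullArea (S : Finset (ℝ × ℝ)) : ℝ :=
  (volume (convexHull ℝ (S : Set (ℝ × ℝ)))).toReal

/-- The smallest area of the convex hull of a `k`-element subset of `P`. -/
noncomputable def minHullArea (k : ℕ) (P : Finset (ℝ × ℝ)) : ℝ :=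
  sInf {a : ℝ | ∃ S : Finset (ℝ × ℝ), S ⊆ P ∧ S.card = k ∧ a = hullArea S}

/-- The supremum, over all rectangles `rect d` with `0 < d ≤ 1` and all sets `P` of `n` points
of `rect d`, of the smallest area of the convex hull of `k` points of `P`. -/
noncomputable def Delta (k n : ℕ) : ℝ :=
  sSup {a : ℝ | ∃ d : ℝ, 0 < d ∧ d ≤ 1 ∧ ∃ P : Finset (ℝ × ℝ),
    (P : Set (ℝ × ℝ)) ⊆ rect d ∧ P.card = n ∧ a = minHullArea k P}

lemma shift_x (K : Set (ℝ × ℝ)) (hK : IsCompact K) (hc : Convex ℝ K) (δ : ℝ) (hδ : 0 ≤ δ)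
    (T : Set ℝ) (hT : MeasurableSet T) (hproj : ∀ p ∈ K, p.2 ∈ T) :
    volume {q : ℝ × ℝ | ∃ p ∈ K, p.2 = q.2 ∧ p.1 ≤ q.1 ∧ q.1 ≤ p.1 + δ}
      ≤ volume K + ENNReal.ofReal δ * volume T := by
  set K' : Set (ℝ × ℝ) := {q : ℝ × ℝ | ∃ p ∈ K, p.2 = q.2 ∧ p.1 ≤ q.1 ∧ q.1 ≤ p.1 + δ} with hK'
  have himg : K' = (fun z : (ℝ × ℝ) × ℝ => (z.1.1 + z.2, z.1.2)) '' (K ×ˢ Icc 0 δ) := by
    ext q
    constructor
    · rintro ⟨p, hp, h1, h2, h3⟩
      refine ⟨(p, q.1 - p.1), ⟨hp, ⟨by simpa using h2, by simp; linarith⟩⟩, ?_⟩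
      ext <;> simp [h1]
    · rintro ⟨z, ⟨hz1, hz2⟩, rfl⟩
      refine ⟨z.1, hz1, rfl, ?_, ?_⟩
      · simpa using hz2.1
      · simpa using hz2.2
  have hK'c : IsCompact K' := by
    rw [himg]
    exact (hK.prod isCompact_Icc).image (by fun_prop)
  have hm' : MeasurableSet K' := hK'c.measurableSet
  have hm : MeasurableSet K := hK.measurableSet
  have e1 : volume K' = ∫⁻ y, volume ((fun x : ℝ => (x, y)) ⁻¹' K') := by
    rw [Measure.volume_eq_prod, Measure.prod_apply_symm hm']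
  have e2 : volume K = ∫⁻ y, volume ((fun x : ℝ => (x, y)) ⁻¹' K) := by
    rw [Measure.volume_eq_prod, Measure.prod_apply_symm hm]
  have e3 : ENNReal.ofReal δ * volume T = ∫⁻ y, T.indicator (fun _ => ENNReal.ofReal δ) y := by
    rw [lintegral_indicator hT, lintegral_const, Measure.restrict_apply MeasurableSet.univ,
      univ_inter]
  have hpt : ∀ y : ℝ, volume ((fun x : ℝ => (x, y)) ⁻¹' K')
      ≤ volume ((fun x : ℝ => (x, y)) ⁻¹' K) + T.indicator (fun _ => ENNReal.ofReal δ) y := by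
    intro y
    by_cases hne : ((fun x : ℝ => (x, y)) ⁻¹' K).Nonempty
    · obtain ⟨x0, hx0⟩ := hne
      have hyT : y ∈ T := hproj _ hx0
      have hcl : IsCompact ((fun x : ℝ => (x, y)) ⁻¹' K) := by
        have : (fun x : ℝ => (x, y)) ⁻¹' K = Prod.fst '' (K ∩ {p | p.2 = y}) := by
          ext x
          constructor
          · intro hx
            exact ⟨(x, y), ⟨hx, rfl⟩, rfl⟩
          · rintro ⟨p, ⟨hp, hp2⟩, rfl⟩
            have : (p.1, y) = p := by ext <;> simp; exact hp2.symm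
            simpa [this] using hp
        rw [this]
        refine IsCompact.image ?_ continuous_fst
        exact hK.inter_right (isClosed_eq continuous_snd continuous_const)
      have hcv : Convex ℝ ((fun x : ℝ => (x, y)) ⁻¹' K) := by
        intro u hu v hv a b ha hb hab
        have := hc hu hv ha hb hab
        have e : a • ((u, y) : ℝ × ℝ) + b • ((v, y) : ℝ × ℝ) = (a • u + b • v, y) := by
          ext
          · simp
          · simp only [Prod.smul_mk, Prod.mk_add_mk, smul_eq_mul]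
            rw [← add_mul, hab, one_mul]
        rw [e] at this
        exact this
      have hconn : IsConnected ((fun x : ℝ => (x, y)) ⁻¹' K) := ⟨⟨x0, hx0⟩, hcv.isPreconnected⟩
      have hIcc := eq_Icc_of_connected_compact hconn hcl
      set a := sInf ((fun x : ℝ => (x, y)) ⁻¹' K)
      set b := sSup ((fun x : ℝ => (x, y)) ⁻¹' K)
      have hab : a ≤ b := by
        have := hx0
        rw [hIcc] at this
        exact this.1.trans this.2
      have hsub : (fun x : ℝ => (x, y)) ⁻¹' K' ⊆ Icc a (b + δ) := by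
        rintro x ⟨p, hp, h1, h2, h3⟩
        have hp' : p.1 ∈ (fun x : ℝ => (x, y)) ⁻¹' K := by
          have : (p.1, y) = p := by ext <;> simp; exact h1.symm
          simpa [this] using hp
        rw [hIcc] at hp'
        simp only at h2 h3
        exact ⟨hp'.1.trans h2, h3.trans (by linarith [hp'.2])⟩
      calc volume ((fun x : ℝ => (x, y)) ⁻¹' K') ≤ volume (Icc a (b + δ)) := measure_mono hsub
        _ = ENNReal.ofReal (b - a + δ) := by rw [Real.volume_Icc]; congr 1; ring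
        _ = ENNReal.ofReal (b - a) + ENNReal.ofReal δ := ENNReal.ofReal_add (by linarith) hδ
        _ = volume ((fun x : ℝ => (x, y)) ⁻¹' K) + T.indicator (fun _ => ENNReal.ofReal δ) y := by
            rw [indicator_of_mem hyT, hIcc, Real.volume_Icc]
    · have hempty : (fun x : ℝ => (x, y)) ⁻¹' K' = ∅ := by
        rw [eq_empty_iff_forall_notMem]
        rintro x ⟨p, hp, h1, -, -⟩
        apply hne
        refine ⟨p.1, ?_⟩
        have : (p.1, y) = p := by ext <;> simp; exact h1.symm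
        simpa [this] using hp
      rw [hempty]
      simp
  have hmeas : Measurable fun y : ℝ => volume ((fun x : ℝ => (x, y)) ⁻¹' K) :=
    measurable_measure_prodMk_right hm
  calc volume K' = ∫⁻ y, volume ((fun x : ℝ => (x, y)) ⁻¹' K') := e1
    _ ≤ ∫⁻ y, (volume ((fun x : ℝ => (x, y)) ⁻¹' K) + T.indicator (fun _ => ENNReal.ofReal δ) y) :=
        lintegral_mono hpt
    _ = (∫⁻ y, volume ((fun x : ℝ => (x, y)) ⁻¹' K)) +
          ∫⁻ y, T.indicator (fun _ => ENNReal.ofReal δ) y := lintegral_add_left hmeas _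
    _ = volume K + ENNReal.ofReal δ * volume T := by rw [← e2, ← e3]


/-- horizontal thickening -/
def thickX (K : Set (ℝ × ℝ)) (δ : ℝ) : Set (ℝ × ℝ) :=
  {q : ℝ × ℝ | ∃ p ∈ K, p.2 = q.2 ∧ p.1 ≤ q.1 ∧ q.1 ≤ p.1 + δ}

/-- vertical thickening -/
def thickY (K : Set (ℝ × ℝ)) (δ : ℝ) : Set (ℝ × ℝ) :=
  {q : ℝ × ℝ | ∃ p ∈ K, p.1 = q.1 ∧ p.2 ≤ q.2 ∧ q.2 ≤ p.2 + δ}

lemma thickX_compact (K : Set (ℝ × ℝ)) (hK : IsCompact K) (δ : ℝ) : IsCompact (thickX K δ) := by
  have himg : thickX K δ = (fun z : (ℝ × ℝ) × ℝ => (z.1.1 + z.2, z.1.2)) '' (K ×ˢ Icc 0 δ) := by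
    ext q
    constructor
    · rintro ⟨p, hp, h1, h2, h3⟩
      refine ⟨(p, q.1 - p.1), ⟨hp, ⟨by simpa using h2, by simp; linarith⟩⟩, ?_⟩
      ext <;> simp [h1]
    · rintro ⟨z, ⟨hz1, hz2⟩, rfl⟩
      refine ⟨z.1, hz1, rfl, ?_, ?_⟩
      · simpa using hz2.1
      · simpa using hz2.2
  rw [himg]
  exact (hK.prod isCompact_Icc).image (by fun_prop)

lemma thickX_convex (K : Set (ℝ × ℝ)) (hc : Convex ℝ K) (δ : ℝ) : Convex ℝ (thickX K δ) := by
  rintro u ⟨p, hp, h1, h2, h3⟩ v ⟨q, hq, g1, g2, g3⟩ a b ha hb hab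
  refine ⟨a • p + b • q, hc hp hq ha hb hab, ?_, ?_, ?_⟩
  · simp [h1, g1]
  · simp only [Prod.fst_add, Prod.smul_fst, smul_eq_mul]
    nlinarith [mul_le_mul_of_nonneg_left h2 ha, mul_le_mul_of_nonneg_left g2 hb]
  · simp only [Prod.fst_add, Prod.smul_fst, smul_eq_mul]
    have e : δ = a * δ + b * δ := by rw [← add_mul, hab, one_mul]
    nlinarith [mul_le_mul_of_nonneg_left h3 ha, mul_le_mul_of_nonneg_left g3 hb]

lemma swap_volume (A : Set (ℝ × ℝ)) (hA : MeasurableSet A) :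
    volume (Prod.swap ⁻¹' A) = volume A := by
  have := (Measure.measurePreserving_swap (μ := (volume : Measure ℝ))
    (ν := (volume : Measure ℝ))).measure_preimage hA.nullMeasurableSet
  simpa [Measure.volume_eq_prod] using this

lemma shift_y (K : Set (ℝ × ℝ)) (hK : IsCompact K) (hc : Convex ℝ K) (δ : ℝ) (hδ : 0 ≤ δ)
    (T : Set ℝ) (hT : MeasurableSet T) (hproj : ∀ p ∈ K, p.1 ∈ T) :
    volume (thickY K δ) ≤ volume K + ENNReal.ofReal δ * volume T := by
  have hcomp : IsCompact (Prod.swap ⁻¹' K) := by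
    have : Prod.swap ⁻¹' K = Prod.swap '' K := by
      rw [Set.image_swap_eq_preimage_swap]
    rw [this]
    exact hK.image continuous_swap
  have hconv : Convex ℝ (Prod.swap ⁻¹' K) := by
    intro u hu v hv a b ha hb hab
    exact hc hu hv ha hb hab
  have h := shift_x (Prod.swap ⁻¹' K) hcomp hconv δ hδ T hT (fun p hp => hproj _ hp)
  have e1 : volume (Prod.swap ⁻¹' K) = volume K := swap_volume K hK.measurableSet
  have e2 : Prod.swap ⁻¹' (thickX (Prod.swap ⁻¹' K) δ) = thickY K δ := by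
    ext q
    constructor
    · rintro ⟨p, hp, h1, h2, h3⟩
      exact ⟨p.swap, hp, h1, h2, h3⟩
    · rintro ⟨p, hp, h1, h2, h3⟩
      exact ⟨p.swap, by simpa using hp, h1, h2, h3⟩
  rw [← e2, swap_volume _ (thickX_compact _ hcomp δ).measurableSet, ← e1]
  exact h

lemma hull_bound (S : Finset (ℝ × ℝ)) (s : ℕ) (hs : 0 < s)
    (hS : ∀ p ∈ S, ∃ i j : ℕ, i ≤ s ∧ j ≤ s ∧ p = ((i : ℝ) / s, (j : ℝ) / s)) :
    ((S.card : ℝ) - 1) / (s : ℝ) ^ 2 - 2 / s ≤ hullArea S := by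
  have hs' : (0 : ℝ) < s := by exact_mod_cast hs
  set δ : ℝ := 1 / s with hδdef
  have hδ : 0 < δ := by positivity
  set K : Set (ℝ × ℝ) := convexHull ℝ (S : Set (ℝ × ℝ)) with hKdef
  have hKc : IsCompact K := Set.Finite.isCompact_convexHull (𝕜 := ℝ) S.finite_toSet
  have hKv : Convex ℝ K := convex_convexHull ℝ _
  have hKsub : K ⊆ Icc (0 : ℝ) 1 ×ˢ Icc (0 : ℝ) 1 := by
    refine convexHull_min ?_ ((convex_Icc 0 1).prod (convex_Icc 0 1))
    intro p hp
    obtain ⟨i, j, hi, hj, rfl⟩ := hS p hp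
    have hi' : (i : ℝ) ≤ s := by exact_mod_cast hi
    have hj' : (j : ℝ) ≤ s := by exact_mod_cast hj
    refine ⟨⟨by positivity, ?_⟩, ⟨by positivity, ?_⟩⟩
    · simp only; rw [div_le_one hs']; exact hi'
    · simp only; rw [div_le_one hs']; exact hj'
  have h1 := shift_x K hKc hKv δ hδ.le (Icc 0 1) measurableSet_Icc (fun p hp => (hKsub hp).2)
  change volume (thickX K δ) ≤ _ at h1
  have h2 := shift_y (thickX K δ) (thickX_compact K hKc δ) (thickX_convex K hKv δ) δ hδ.le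
    (Icc 0 (1 + δ)) measurableSet_Icc (by
      rintro p ⟨q, hq, g1, g2, g3⟩
      have := (hKsub hq).1
      exact ⟨this.1.trans g2, g3.trans (by linarith [this.2])⟩)
  have hfinK : volume K ≠ ⊤ := hKc.measure_lt_top.ne
  -- lower bound
  have h3 : (S.card : ENNReal) * ENNReal.ofReal (δ * δ) ≤ volume (thickY (thickX K δ) δ) := by
    have hdisj : (S : Set (ℝ × ℝ)).PairwiseDisjoint
        (fun p : ℝ × ℝ => Ico p.1 (p.1 + δ) ×ˢ Ico p.2 (p.2 + δ)) := by
      intro p hp q hq hpq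
      rw [Function.onFun, Set.disjoint_left]
      rintro ⟨x, y⟩ ⟨hx, hy⟩ ⟨hx', hy'⟩
      simp only at hx hy hx' hy'
      obtain ⟨i, j, -, -, rfl⟩ := hS p hp
      obtain ⟨i', j', -, -, rfl⟩ := hS q hq
      apply hpq
      have key : ∀ (a b : ℕ) (t : ℝ), t ∈ Ico ((a : ℝ) / s) ((a : ℝ) / s + δ) →
          t ∈ Ico ((b : ℝ) / s) ((b : ℝ) / s + δ) → a = b := by
        intro a b t ha hb
        have e1 : (a : ℝ) / s < (b : ℝ) / s + 1 / s := lt_of_le_of_lt ha.1 hb.2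
        have e2 : (b : ℝ) / s < (a : ℝ) / s + 1 / s := lt_of_le_of_lt hb.1 ha.2
        rw [← add_div, div_lt_div_iff_of_pos_right hs'] at e1 e2
        have e1' : a < b + 1 := by exact_mod_cast e1
        have e2' : b < a + 1 := by exact_mod_cast e2
        omega
      rw [key i i' x hx hx', key j j' y hy hy']
    have hsub : (⋃ p ∈ S, Ico p.1 (p.1 + δ) ×ˢ Ico p.2 (p.2 + δ)) ⊆ thickY (thickX K δ) δ := by
      intro q hq
      simp only [mem_iUnion] at hq
      obtain ⟨p, hp, hq⟩ := hq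
      refine ⟨(q.1, p.2), ⟨p, subset_convexHull ℝ _ hp, rfl, hq.1.1, hq.1.2.le⟩, rfl, hq.2.1,
        hq.2.2.le⟩
    calc (S.card : ENNReal) * ENNReal.ofReal (δ * δ)
        = ∑ p ∈ S, volume (Ico p.1 (p.1 + δ) ×ˢ Ico p.2 (p.2 + δ)) := by
          rw [Finset.sum_congr rfl (g := fun _ => ENNReal.ofReal (δ * δ))]
          · simp
          · intro p _
            rw [Measure.volume_eq_prod, Measure.prod_prod, Real.volume_Ico, Real.volume_Ico,
              ← ENNReal.ofReal_mul (by linarith)]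
            congr 1
            ring
      _ = volume (⋃ p ∈ S, Ico p.1 (p.1 + δ) ×ˢ Ico p.2 (p.2 + δ)) :=
          (measure_biUnion_finset hdisj (fun p _ => measurableSet_Ico.prod measurableSet_Ico)).symm
      _ ≤ _ := measure_mono hsub
  have h4 : (S.card : ENNReal) * ENNReal.ofReal (δ * δ) ≤
      volume K + ENNReal.ofReal δ * volume (Icc (0 : ℝ) 1)
        + ENNReal.ofReal δ * volume (Icc (0 : ℝ) (1 + δ)) :=
    h3.trans (h2.trans (add_le_add_left h1 _))
  have h5 : (S.card : ℝ) * (δ * δ) ≤ hullArea S + δ + δ * (1 + δ) := by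
    have hL : (S.card : ENNReal) * ENNReal.ofReal (δ * δ)
        = ENNReal.ofReal ((S.card : ℝ) * (δ * δ)) := by
      rw [ENNReal.ofReal_mul (p := (S.card : ℝ)) (by positivity), ENNReal.ofReal_natCast]
    have hR : volume K + ENNReal.ofReal δ * volume (Icc (0 : ℝ) 1)
        + ENNReal.ofReal δ * volume (Icc (0 : ℝ) (1 + δ))
        = ENNReal.ofReal (hullArea S + δ + δ * (1 + δ)) := by
      rw [Real.volume_Icc, Real.volume_Icc, ENNReal.ofReal_add, ENNReal.ofReal_add,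
        ENNReal.ofReal_mul hδ.le]
      · congr 1
        · congr 1
          · rw [hullArea, ENNReal.ofReal_toReal hfinK]
          · simp
        · simp
      · exact ENNReal.toReal_nonneg
      · exact hδ.le
      · exact add_nonneg ENNReal.toReal_nonneg hδ.le
      · positivity
    rw [hL, hR] at h4
    exact (ENNReal.ofReal_le_ofReal_iff (by
      have : 0 ≤ hullArea S := ENNReal.toReal_nonneg
      positivity)).1 h4
  have e : ((S.card : ℝ) - 1) / (s : ℝ) ^ 2 - 2 / s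
      = (S.card : ℝ) * (δ * δ) - δ - δ * (1 + δ) := by
    rw [hδdef]
    field_simp
    ring
  rw [e]
  linarith

lemma hullArea_nonneg (S : Finset (ℝ × ℝ)) : 0 ≤ hullArea S := ENNReal.toReal_nonneg

lemma volume_rect (d : ℝ) (hd : 0 < d) : volume (rect d) = 1 := by
  rw [rect, Measure.volume_eq_prod, Measure.prod_prod, Real.volume_Icc, Real.volume_Icc,
    ← ENNReal.ofReal_mul (by linarith)]
  simp [hd.ne']

lemma hullArea_le_one (d : ℝ) (hd : 0 < d) (S : Finset (ℝ × ℝ))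
    (hS : (S : Set (ℝ × ℝ)) ⊆ rect d) : hullArea S ≤ 1 := by
  have hsub : convexHull ℝ (S : Set (ℝ × ℝ)) ⊆ rect d :=
    convexHull_min hS ((convex_Icc 0 d).prod (convex_Icc 0 d⁻¹))
  have h := measure_mono (μ := volume) hsub
  rw [volume_rect d hd] at h
  rw [hullArea]
  exact ENNReal.toReal_le_of_le_ofReal zero_le_one (by simpa using h)

lemma bddBelow_aux (k : ℕ) (P : Finset (ℝ × ℝ)) :
    BddBelow {a : ℝ | ∃ S : Finset (ℝ × ℝ), S ⊆ P ∧ S.card = k ∧ a = hullArea S} := by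
  refine ⟨0, ?_⟩
  rintro a ⟨S, -, -, rfl⟩
  exact hullArea_nonneg S

lemma minHullArea_le_one (k : ℕ) (d : ℝ) (hd : 0 < d) (P : Finset (ℝ × ℝ))
    (hP : (P : Set (ℝ × ℝ)) ⊆ rect d) : minHullArea k P ≤ 1 := by
  by_cases h : {a : ℝ | ∃ S : Finset (ℝ × ℝ), S ⊆ P ∧ S.card = k ∧ a = hullArea S}.Nonempty
  · obtain ⟨a, ha⟩ := h
    obtain ⟨S, hS, hc, rfl⟩ := ha
    exact (csInf_le (bddBelow_aux k P) ⟨S, hS, hc, rfl⟩).trans
      (hullArea_le_one d hd S (fun x hx => hP (hS hx)))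
  · rw [Set.not_nonempty_iff_eq_empty] at h
    rw [minHullArea, h, Real.sInf_empty]
    exact zero_le_one

lemma bddAbove_aux (k n : ℕ) :
    BddAbove {a : ℝ | ∃ d : ℝ, 0 < d ∧ d ≤ 1 ∧ ∃ P : Finset (ℝ × ℝ),
      (P : Set (ℝ × ℝ)) ⊆ rect d ∧ P.card = n ∧ a = minHullArea k P} := by
  refine ⟨1, ?_⟩
  rintro a ⟨d, hd, -, P, hP, -, rfl⟩
  exact minHullArea_le_one k d hd P hP

lemma exists_grid (n s : ℕ) (hs : 0 < s) (hn : n ≤ (s + 1) * (s + 1)) :
    ∃ P : Finset (ℝ × ℝ), P.card = n ∧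
      ∀ p ∈ P, ∃ i j : ℕ, i ≤ s ∧ j ≤ s ∧ p = ((i : ℝ) / s, (j : ℝ) / s) := by
  have hs' : (s : ℝ) ≠ 0 := by exact_mod_cast hs.ne'
  set f : ℕ × ℕ → ℝ × ℝ := fun z => ((z.1 : ℝ) / s, (z.2 : ℝ) / s) with hf
  have hinj : Function.Injective f := by
    rintro ⟨a, b⟩ ⟨c, d⟩ h
    simp only [hf, Prod.mk.injEq] at h
    have h1 := h.1
    have h2 := h.2
    rw [div_left_inj' hs'] at h1 h2
    have h1' : a = c := by exact_mod_cast h1
    have h2' : b = d := by exact_mod_cast h2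
    rw [h1', h2']
  set G : Finset (ℝ × ℝ) := (Finset.range (s + 1) ×ˢ Finset.range (s + 1)).image f with hG
  have hcard : G.card = (s + 1) * (s + 1) := by
    rw [hG, Finset.card_image_of_injective _ hinj, Finset.card_product, Finset.card_range]
  obtain ⟨P, hPG, hPc⟩ := Finset.exists_subset_card_eq (s := G) (n := n) (by rw [hcard]; exact hn)
  refine ⟨P, hPc, ?_⟩
  intro p hp
  have := hPG hp
  rw [hG, Finset.mem_image] at this
  obtain ⟨⟨a, b⟩, hab, rfl⟩ := this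
  rw [Finset.mem_product, Finset.mem_range, Finset.mem_range] at hab
  exact ⟨a, b, by omega, by omega, rfl⟩

/-- For every `α ≥ 3` and every `k ≥ 64 α + 2` the value `Δ'_k(α(k-1))` is strictly larger than
`1 / (2(α-1))`. -/
theorem result (α k : ℕ) (hα : 3 ≤ α) (hk : 64 * α + 2 ≤ k) :
    1 / (2 * ((α : ℝ) - 1)) < Delta k (α * (k - 1)) := by
  obtain ⟨m, rfl⟩ : ∃ m, k = m + 1 := ⟨k - 1, by omega⟩
  simp only [Nat.add_sub_cancel]
  obtain ⟨n, hn⟩ : ∃ n, n = α * m := ⟨_, rfl⟩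
  rw [← hn]
  have hm : 64 * α + 1 ≤ m := by omega
  have hn1 : (8 * α) * (8 * α) ≤ n - 1 := by
    have : α * (64 * α + 1) ≤ n := by rw [hn]; exact Nat.mul_le_mul_left α hm
    have h2 : (8 * α) * (8 * α) + α = α * (64 * α + 1) := by ring
    omega
  obtain ⟨s, hsdef⟩ : ∃ s, s = Nat.sqrt (n - 1) := ⟨_, rfl⟩
  have hs8 : 8 * α ≤ s := by rw [hsdef]; exact Nat.le_sqrt.2 hn1
  have hs : 0 < s := by omega
  have hs1 : s * s ≤ n - 1 := by rw [hsdef]; exact Nat.sqrt_le (n - 1)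
  have hs2 : n - 1 < (s + 1) * (s + 1) := by
    have := Nat.lt_succ_sqrt (n - 1)
    simpa [hsdef, Nat.succ_eq_add_one] using this
  have hle : n ≤ (s + 1) * (s + 1) := by
    have h := Nat.lt_iff_add_one_le.1 hs2
    exact le_trans (by omega) h
  obtain ⟨P, hPc, hP⟩ := exists_grid n s hs hle
  have hmem : minHullArea (m + 1) P ∈ {a : ℝ | ∃ d : ℝ, 0 < d ∧ d ≤ 1 ∧ ∃ P : Finset (ℝ × ℝ),
      (P : Set (ℝ × ℝ)) ⊆ rect d ∧ P.card = n ∧ a = minHullArea (m + 1) P} := by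
    refine ⟨1, one_pos, le_rfl, P, ?_, hPc, rfl⟩
    intro p hp
    obtain ⟨i, j, hi, hj, rfl⟩ := hP p hp
    have hs' : (0 : ℝ) < s := by exact_mod_cast hs
    have hi' : (i : ℝ) ≤ s := by exact_mod_cast hi
    have hj' : (j : ℝ) ≤ s := by exact_mod_cast hj
    refine ⟨⟨by positivity, ?_⟩, ⟨by positivity, ?_⟩⟩
    · simp only; rw [div_le_one hs']; exact hi'
    · simp only; rw [div_le_iff₀ hs']; simpa using hj'
  refine lt_of_lt_of_le ?_ (le_csSup (bddAbove_aux (m + 1) n) hmem)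
  have hne : {a : ℝ | ∃ S : Finset (ℝ × ℝ), S ⊆ P ∧ S.card = m + 1 ∧ a = hullArea S}.Nonempty := by
    obtain ⟨S, hS, hSc⟩ := Finset.exists_subset_card_eq (s := P) (n := m + 1) (by
      rw [hPc, hn]; nlinarith)
    exact ⟨_, S, hS, hSc, rfl⟩
  have hlow : ((m : ℝ)) / (s : ℝ) ^ 2 - 2 / s ≤ minHullArea (m + 1) P := by
    refine le_csInf hne ?_
    rintro a ⟨S, hS, hSc, rfl⟩
    have := hull_bound S s hs (fun p hp => hP p (hS hp))
    rw [hSc] at this
    simpa using this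
  refine lt_of_lt_of_le ?_ hlow
  have hαr : (3 : ℝ) ≤ α := by exact_mod_cast hα
  have hsr : (8 : ℝ) * α ≤ s := by exact_mod_cast hs8
  have hsr0 : (0 : ℝ) < s := by exact_mod_cast hs
  have hsn : (s : ℝ) ^ 2 < α * m := by
    have hn0 : 0 < n := by rw [hn]; exact Nat.mul_pos (by omega) (by omega)
    have : s * s < α * m := by rw [← hn]; omega
    have : ((s * s : ℕ) : ℝ) < ((α * m : ℕ) : ℝ) := by exact_mod_cast this
    push_cast at this
    nlinarith
  have h1 : 1 / (α : ℝ) < (m : ℝ) / (s : ℝ) ^ 2 := by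
    rw [div_lt_div_iff₀ (by linarith) (by positivity)]
    nlinarith
  have h2 : 2 / (s : ℝ) ≤ 1 / (4 * α) := by
    rw [div_le_div_iff₀ hsr0 (by linarith)]
    nlinarith
  have h3 : 1 / (2 * ((α : ℝ) - 1)) ≤ 1 / α - 1 / (4 * α) := by
    have e : 1 / (α : ℝ) - 1 / (4 * α) = 3 / (4 * α) := by
      field_simp
      ring
    rw [e, div_le_div_iff₀ (by linarith) (by linarith)]
    nlinarith
  linarith

end Pool.Agent.Results.MP_6b0309_co.LargeK
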